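import Pool.Agent.XE31.Q8

/-!
# MP_8410ab_nt: the Ramanujan conjecture in mean square, and the density hypothesis at each prime

For every `ε > 0` there is a constant `C` such that for EVERY congruence subgroup `Γ` of `SL(2,ℤ)`,
of level `N` and index `n`, every `T ≥ 1`, and all linearly independent Maass cusp forms `f_i` on
`Γ \ ℍ` with Laplace eigenvalues in `[0, T ^ 2]`:

* if `m` is coprime to `N` and the `f_i` are eigenfunctions of the Hecke operator of `m ^ 2` with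
  normalised eigenvalues `λ_i`, then `∑ λ_i ^ 2 ≤ C (n m T) ^ ε (n T ^ 2 + m ^ 2)`;
* if `p` is a prime not dividing `N` and the forms have Satake parameters of absolute values
  `p ^ (± α_i / 2)` at `p`, with `α_i ≥ 0`, then
  `∑ (n T ^ 2) ^ α_i ≤ C (n p T) ^ ε p (n T ^ 2)`;
* if each form has an exponent `≥ α` at some prime `≤ P` not dividing `N`, then the number of forms
  is at most `C (n P T) ^ ε P ^ 2 (n T ^ 2) ^ (1 - α)`.
-/

set_option autoImplicit false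

open MeasureTheory
open scoped MatrixGroups UpperHalfPlane

namespace Pool.Agent.Results.MP_8410ab_nt.MeanSquare

/-- `f` is a square integrable cuspidal eigenfunction of the Laplacian `-y² (∂²/∂x² + ∂²/∂y²)` on
`Γ \ ℍ`, with eigenvalue `κ`. -/
structure IsCuspForm (Γ : Subgroup SL(2, ℤ)) (κ : ℝ) (f : ℂ → ℂ) : Prop where
  /-- `f` is smooth on the upper half plane -/
  smooth : ContDiffOn ℝ (⊤ : ℕ∞) f {w : ℂ | 0 < w.im}
  /-- `f` is `Γ`-invariant -/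
  invariant : ∀ γ ∈ Γ, ∀ z : ℍ, f ((γ • z : ℍ) : ℂ) = f (z : ℂ)
  /-- `-y² (f_xx + f_yy) = κ f` -/
  laplace : ∀ z : ℍ,
    -((z.im : ℂ) ^ 2) *
      (deriv (fun s : ℝ => deriv (fun t : ℝ => f ((t : ℂ) + (z.im : ℂ) * Complex.I)) s) z.re
        + deriv (fun s : ℝ => deriv (fun t : ℝ => f ((z.re : ℂ) + (t : ℂ) * Complex.I)) s) z.im)
      = (κ : ℂ) * f (z : ℂ)
  /-- `f` is square integrable for `dx dy / y²` on every translate of the fundamental domain -/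
  sqIntegrable : ∀ γ : SL(2, ℤ), IntegrableOn (fun w : ℂ => ‖f w‖ ^ 2 / w.im ^ 2)
    ((fun z : ℍ => ((γ • z : ℍ) : ℂ)) '' ModularGroup.fd)
  /-- the constant terms of `f` at all cusps vanish -/
  cuspidal : ∀ (γ : SL(2, ℤ)) (N : ℕ), 0 < N → CongruenceSubgroup.Gamma N ≤ Γ →
    ∀ (y : ℝ) (hy : 0 < y), ∫ x in (0 : ℝ)..N, f ((γ • (⟨⟨x, y⟩, hy⟩ : ℍ) : ℍ) : ℂ) = 0

/-- `N` is the level of the congruence subgroup `Γ`: the least `N ≥ 1` with `Γ(N) ≤ Γ`. -/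
def IsLevel (Γ : Subgroup SL(2, ℤ)) (N : ℕ) : Prop :=
  IsLeast {M : ℕ | 0 < M ∧ CongruenceSubgroup.Gamma M ≤ Γ} N

/-- The integral matrices of determinant `m ^ 2` which are congruent to `m` times the identity
modulo `N`. -/
def HeckeSet (N m : ℕ) : Set (Matrix (Fin 2) (Fin 2) ℤ) :=
  {g | g.det = (m : ℤ) ^ 2 ∧ g.map (Int.cast : ℤ → ZMod N) = (m : ZMod N) • 1}

/-- `S` is a complete system of representatives of `Γ(N) \ HeckeSet N m`. -/
structure IsReps (N m : ℕ) (S : Finset (Matrix (Fin 2) (Fin 2) ℤ)) : Prop where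
  /-- the representatives lie in the set -/
  subset : ∀ g ∈ S, g ∈ HeckeSet N m
  /-- every orbit has exactly one representative -/
  unique : ∀ h ∈ HeckeSet N m, ∃! g, g ∈ S ∧
    ∃ γ ∈ CongruenceSubgroup.Gamma N, h = (γ : Matrix (Fin 2) (Fin 2) ℤ) * g

/-- The Hecke operator of `m ^ 2`, i.e. the sum over `Γ(N) \ HeckeSet N m`, acts on `f` by
multiplication by `m lam`: so `lam` is the Hecke eigenvalue of `f` at `m ^ 2`, normalised so that the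
Ramanujan conjecture is the bound `|lam| ≤` the number of divisors of `m ^ 2`. -/
def HasHeckeEigenvalue (N m : ℕ) (lam : ℝ) (f : ℂ → ℂ) : Prop :=
  ∃ S, IsReps N m S ∧ ∀ z : ℍ,
    ∑ g ∈ S, f (((g 0 0 : ℂ) * z + g 0 1) / ((g 1 0 : ℂ) * z + g 1 1)) =
      ((m * lam : ℝ) : ℂ) * f z

/-- The Hecke operator of `p ^ (2 j)`, i.e. the sum over `Γ(N) \ HeckeSet N (p ^ j)`, acts on `f` for
every `j` by `p ^ j` times `∑ p ^ (α l)`, `|l| ≤ j`: the ratio of the Satake parameters of `f` at `p`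
is `p ^ α`. So `f` is tempered at `p` if `α = 0` and not tempered at `p` if `α > 0`. -/
def HasExponent (N p : ℕ) (α : ℝ) (f : ℂ → ℂ) : Prop :=
  ∀ j : ℕ, ∃ S, IsReps N (p ^ j) S ∧ ∀ z : ℍ,
    ∑ g ∈ S, f (((g 0 0 : ℂ) * z + g 0 1) / ((g 1 0 : ℂ) * z + g 1 1)) =
      (((p : ℝ) ^ j * ∑ l ∈ Finset.Icc (-(j : ℤ)) j, (p : ℝ) ^ (α * l) : ℝ) : ℂ) * f z

theorem heckeSet_iff {N m : ℕ} (g : Matrix (Fin 2) (Fin 2) ℤ) :
    g ∈ HeckeSet N m ↔ Pool.Agent.XE31.H4.HM N m g := by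
  constructor
  · rintro ⟨h1, h2⟩
    have e : ∀ i j, ((g i j : ℤ) : ZMod N) = ((m : ZMod N) • (1 : Matrix (Fin 2) (Fin 2) (ZMod N))) i j :=
      fun i j => by rw [← h2]; rfl
    refine ⟨by rw [← h1, Matrix.det_fin_two], ?_, ?_, ?_, ?_⟩
    · rw [e]; simp
    · rw [e]; simp
    · rw [e]; simp
    · rw [e]; simp
  · intro h
    refine ⟨by rw [Matrix.det_fin_two]; exact h.det, ?_⟩
    ext i j
    fin_cases i <;> fin_cases j
    · simpa using h.e00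
    · simpa using h.e01
    · simpa using h.e10
    · simpa using h.e11

theorem reps_of {N m : ℕ} {S : Finset (Matrix (Fin 2) (Fin 2) ℤ)} (h : IsReps N m S) :
    Pool.Agent.XE31.H4.Reps N m S := by
  refine ⟨fun g hg => (heckeSet_iff g).1 (h.subset g hg), fun g hg => ?_, fun s hs t ht γ hγ e => ?_⟩
  · obtain ⟨s, ⟨hs, γ, hγ, e⟩, _⟩ := h.unique g ((heckeSet_iff g).2 hg)
    exact ⟨γ, hγ, s, hs, e⟩
  · obtain ⟨u, _, hu⟩ := h.unique s (h.subset s hs)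
    have h1 := hu s ⟨hs, 1, Subgroup.one_mem _, by simp⟩
    have h2 := hu t ⟨ht, γ, hγ, e⟩
    rw [h1, h2]

theorem exp_of {N p : ℕ} {α : ℝ} {f : ℂ → ℂ} (h : HasExponent N p α f) :
    Pool.Agent.XE31.R4.HasExp N p α f := by
  intro j
  obtain ⟨S, hS, hz⟩ := h j
  exact ⟨S, reps_of hS, hz⟩

theorem form_of {Γ : Subgroup SL(2, ℤ)} {κ : ℝ} {f : ℂ → ℂ} (h : IsCuspForm Γ κ f) :
    Pool.Agent.XE31.R2.FormK Γ κ f :=
  ⟨⟨h.smooth, h.laplace⟩, h.invariant, h.sqIntegrable, h.cuspidal⟩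

/-- The Ramanujan conjecture holds in mean square over the Maass cusp forms of any congruence
subgroup, and violations of it at a prime satisfy the bound of the density hypothesis. -/
theorem result : ∀ ε : ℝ, 0 < ε → ∃ C : ℝ, 0 < C ∧ ∀ (Γ : Subgroup SL(2, ℤ)) (N : ℕ), IsLevel Γ N →
    ∀ T : ℝ, 1 ≤ T → ∀ (k : ℕ) (κ : Fin k → ℝ) (f : Fin k → ℂ → ℂ),
      (∀ i, 0 ≤ κ i ∧ κ i ≤ T ^ 2) → (∀ i, IsCuspForm Γ (κ i) (f i)) →
      LinearIndependent ℂ (fun i => fun z : ℍ => f i z) →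
      (∀ m : ℕ, 0 < m → Nat.Coprime m N → ∀ lam : Fin k → ℝ,
        (∀ i, HasHeckeEigenvalue N m (lam i) (f i)) →
          ∑ i, (lam i) ^ 2 ≤ C * (Γ.index * m * T) ^ ε * (Γ.index * T ^ 2 + (m : ℝ) ^ 2)) ∧
      (∀ p : ℕ, p.Prime → ¬ p ∣ N → ∀ α : Fin k → ℝ,
        (∀ i, 0 ≤ α i ∧ HasExponent N p (α i) (f i)) →
          ∑ i, (Γ.index * T ^ 2) ^ (α i) ≤ C * (Γ.index * p * T) ^ ε * p * (Γ.index * T ^ 2)) ∧
      (∀ P : ℕ, ∀ α : ℝ, 0 ≤ α →
        (∀ i, ∃ p : ℕ, p.Prime ∧ p ≤ P ∧ ¬ p ∣ N ∧ ∃ a, α ≤ a ∧ HasExponent N p a (f i)) →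
          (k : ℝ) ≤ C * (Γ.index * P * T) ^ ε * P ^ 2 * (Γ.index * T ^ 2) ^ (1 - α)) := by
  intro ε hε
  obtain ⟨C₀, hC₀, h0⟩ := Pool.Agent.XE31.Q7.main ε hε
  obtain ⟨C₁, hC₁, h1⟩ := Pool.Agent.XE31.Q8.dens ε hε
  obtain ⟨C₂, hC₂, h2⟩ := Pool.Agent.XE31.Q8.count ε hε
  refine ⟨max C₀ (max C₁ C₂), lt_max_of_lt_left hC₀, ?_⟩
  intro Γ N hN T hT k κ f hκ hf hli
  have hlev : Pool.Agent.N799.DT.IsLevel Γ N :=
    ⟨hN.1.1, hN.1.2, fun M hM hM' => hN.2 ⟨hM, hM'⟩⟩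
  refine ⟨?_, ?_, ?_⟩
  · intro m hm hmN lam hlam
    refine (h0 Γ N hlev T hT m hm hmN k κ f (fun i => (hκ i).1) (fun i => (hκ i).2)
      (fun i => form_of (hf i)) hli lam (fun i => ?_)).trans ?_
    · obtain ⟨S, hS, hz⟩ := hlam i
      exact ⟨S, reps_of hS, hz⟩
    · gcongr
      exact le_max_left _ _
  · intro p hp hpN α hα
    refine (h1 Γ N hlev T hT k κ f (fun i => (hκ i).1) (fun i => (hκ i).2) (fun i => form_of (hf i))
      hli p hp hpN α (fun i => (hα i).1) (fun i => exp_of (hα i).2)).trans ?_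
    gcongr
    exact (le_max_left _ _).trans (le_max_right _ _)
  · intro P α hα hE
    refine (h2 Γ N hlev T hT k κ f (fun i => (hκ i).1) (fun i => (hκ i).2) (fun i => form_of (hf i))
      hli P α hα (fun i => ?_)).trans ?_
    · obtain ⟨p, hp, hpP, hpN, a, ha, hE⟩ := hE i
      exact ⟨p, hp, hpP, hpN, a, ha, exp_of hE⟩
    · gcongr
      exact (le_max_right _ _).trans (le_max_right _ _)

end Pool.Agent.Results.MP_8410ab_nt.MeanSquare
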