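import Pool.Agent.XE31.R4

/-!
# MP_8410ab_nt: forms violating the Ramanujan conjecture at small primes are rare, uniformly

There is an ABSOLUTE constant `C` such that for EVERY congruence subgroup `Γ` of `SL(2,ℤ)`, of level
`N` and index `n`, every `T ≥ 1`, and all linearly independent Maass cusp forms on `Γ \ ℍ` with
Laplace eigenvalues in `[0, T ^ 2]`:

* if `p` is a prime not dividing `N` with `p ^ 1000 ≤ n T` and the forms have Satake parameters of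
  absolute values `p ^ (± α_i / 2)` at `p`, with `α_i ≥ 0`, then
  `∑ (n T) ^ (α_i / 4000) ≤ C n T ^ 2 (log p / log (n T)) ^ 3`;
* if each form has an exponent `≥ α` at some prime not dividing `N` which is at most `P`, where
  `P ^ 1000 ≤ n T`, then the number of forms is at most `C n T ^ 2 P (n T) ^ (- α / 4000)`.
-/

set_option autoImplicit false

open MeasureTheory
open scoped MatrixGroups UpperHalfPlane

namespace Pool.Agent.Results.MP_8410ab_nt.NonTemperedCount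

/-- `f` is a square integrable cuspidal eigenfunction of the Laplacian `-y² (∂²/∂x² + ∂²/∂y²)` on
`Γ \ ℍ`, with eigenvalue `κ`. -/
structure IsCuspForm (Γ : Subgroup SL(2, ℤ)) (κ : ℝ) (f : ℂ → ℂ) : Prop where
  /-- `f` is smooth on the upper half plane -/
  smooth : ContDiffOn ℝ (⊤ : ℕ∞) f {w : ℂ | 0 < w.im}
  /-- `f` is `Γ`-invariant -/
  invariant : ∀ γ ∈ Γ, ∀ z : ℍ, f ((γ • z : ℍ) : ℂ) = f (z : ℂ)
  /-- `-y² (f_xx + f_yy) = κ f` -/
  laplace : ∀ z : ℍ,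
    -((z.im : ℂ) ^ 2) *
      (deriv (fun s : ℝ => deriv (fun t : ℝ => f ((t : ℂ) + (z.im : ℂ) * Complex.I)) s) z.re
        + deriv (fun s : ℝ => deriv (fun t : ℝ => f ((z.re : ℂ) + (t : ℂ) * Complex.I)) s) z.im)
      = (κ : ℂ) * f (z : ℂ)
  /-- `f` is square integrable for `dx dy / y²` on every translate of the fundamental domain -/
  sqIntegrable : ∀ γ : SL(2, ℤ), IntegrableOn (fun w : ℂ => ‖f w‖ ^ 2 / w.im ^ 2)
    ((fun z : ℍ => ((γ • z : ℍ) : ℂ)) '' ModularGroup.fd)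
  /-- the constant terms of `f` at all cusps vanish -/
  cuspidal : ∀ (γ : SL(2, ℤ)) (N : ℕ), 0 < N → CongruenceSubgroup.Gamma N ≤ Γ →
    ∀ (y : ℝ) (hy : 0 < y), ∫ x in (0 : ℝ)..N, f ((γ • (⟨⟨x, y⟩, hy⟩ : ℍ) : ℍ) : ℂ) = 0

/-- `N` is the level of the congruence subgroup `Γ`: the least `N ≥ 1` with `Γ(N) ≤ Γ`. -/
def IsLevel (Γ : Subgroup SL(2, ℤ)) (N : ℕ) : Prop :=
  IsLeast {M : ℕ | 0 < M ∧ CongruenceSubgroup.Gamma M ≤ Γ} N

/-- The integral matrices of determinant `m ^ 2` which are congruent to `m` times the identity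
modulo `N`. -/
def HeckeSet (N m : ℕ) : Set (Matrix (Fin 2) (Fin 2) ℤ) :=
  {g | g.det = (m : ℤ) ^ 2 ∧ g.map (Int.cast : ℤ → ZMod N) = (m : ZMod N) • 1}

/-- `S` is a complete system of representatives of `Γ(N) \ HeckeSet N m`. -/
structure IsReps (N m : ℕ) (S : Finset (Matrix (Fin 2) (Fin 2) ℤ)) : Prop where
  /-- the representatives lie in the set -/
  subset : ∀ g ∈ S, g ∈ HeckeSet N m
  /-- every orbit has exactly one representative -/
  unique : ∀ h ∈ HeckeSet N m, ∃! g, g ∈ S ∧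
    ∃ γ ∈ CongruenceSubgroup.Gamma N, h = (γ : Matrix (Fin 2) (Fin 2) ℤ) * g

/-- The Hecke operator of `p ^ (2 j)`, i.e. the sum over `Γ(N) \ HeckeSet N (p ^ j)`, acts on `f` for
every `j` by `p ^ j` times `∑ p ^ (α l)`, `|l| ≤ j`: the ratio of the Satake parameters of `f` at `p`
is `p ^ α`. So `f` is tempered at `p` if `α = 0` and not tempered at `p` if `α > 0`. -/
def HasExponent (N p : ℕ) (α : ℝ) (f : ℂ → ℂ) : Prop :=
  ∀ j : ℕ, ∃ S, IsReps N (p ^ j) S ∧ ∀ z : ℍ,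
    ∑ g ∈ S, f (((g 0 0 : ℂ) * z + g 0 1) / ((g 1 0 : ℂ) * z + g 1 1)) =
      (((p : ℝ) ^ j * ∑ l ∈ Finset.Icc (-(j : ℤ)) j, (p : ℝ) ^ (α * l) : ℝ) : ℂ) * f z

theorem heckeSet_iff {N m : ℕ} (g : Matrix (Fin 2) (Fin 2) ℤ) :
    g ∈ HeckeSet N m ↔ Pool.Agent.XE31.H4.HM N m g := by
  constructor
  · rintro ⟨h1, h2⟩
    have e : ∀ i j, ((g i j : ℤ) : ZMod N) = ((m : ZMod N) • (1 : Matrix (Fin 2) (Fin 2) (ZMod N))) i j :=
      fun i j => by rw [← h2]; rfl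
    refine ⟨by rw [← h1, Matrix.det_fin_two], ?_, ?_, ?_, ?_⟩
    · rw [e]; simp
    · rw [e]; simp
    · rw [e]; simp
    · rw [e]; simp
  · intro h
    refine ⟨by rw [Matrix.det_fin_two]; exact h.det, ?_⟩
    ext i j
    fin_cases i <;> fin_cases j
    · simpa using h.e00
    · simpa using h.e01
    · simpa using h.e10
    · simpa using h.e11

theorem reps_of {N m : ℕ} {S : Finset (Matrix (Fin 2) (Fin 2) ℤ)} (h : IsReps N m S) :
    Pool.Agent.XE31.H4.Reps N m S := by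
  refine ⟨fun g hg => (heckeSet_iff g).1 (h.subset g hg), fun g hg => ?_, fun s hs t ht γ hγ e => ?_⟩
  · obtain ⟨s, ⟨hs, γ, hγ, e⟩, _⟩ := h.unique g ((heckeSet_iff g).2 hg)
    exact ⟨γ, hγ, s, hs, e⟩
  · obtain ⟨u, _, hu⟩ := h.unique s (h.subset s hs)
    have h1 := hu s ⟨hs, 1, Subgroup.one_mem _, by simp⟩
    have h2 := hu t ⟨ht, γ, hγ, e⟩
    rw [h1, h2]

theorem exp_of {N p : ℕ} {α : ℝ} {f : ℂ → ℂ} (h : HasExponent N p α f) :
    Pool.Agent.XE31.R4.HasExp N p α f := by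
  intro j
  obtain ⟨S, hS, hz⟩ := h j
  exact ⟨S, reps_of hS, hz⟩

theorem form_of {Γ : Subgroup SL(2, ℤ)} {κ : ℝ} {f : ℂ → ℂ} (h : IsCuspForm Γ κ f) :
    Pool.Agent.XE31.R2.FormK Γ κ f :=
  ⟨⟨h.smooth, h.laplace⟩, h.invariant, h.sqIntegrable, h.cuspidal⟩

/-- Maass cusp forms violating the Ramanujan conjecture at small primes are rare, uniformly in the
congruence subgroup, the spectral parameter and the prime. -/
theorem result : ∃ C : ℝ, 0 < C ∧ ∀ (Γ : Subgroup SL(2, ℤ)) (N : ℕ), IsLevel Γ N →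
    ∀ T : ℝ, 1 ≤ T → ∀ (k : ℕ) (κ : Fin k → ℝ) (f : Fin k → ℂ → ℂ),
      (∀ i, 0 ≤ κ i ∧ κ i ≤ T ^ 2) → (∀ i, IsCuspForm Γ (κ i) (f i)) →
      LinearIndependent ℂ (fun i => fun z : ℍ => f i z) →
      (∀ p : ℕ, p.Prime → ¬ p ∣ N → (p : ℝ) ^ 1000 ≤ Γ.index * T →
        ∀ α : Fin k → ℝ, (∀ i, 0 ≤ α i ∧ HasExponent N p (α i) (f i)) →
          ∑ i, (Γ.index * T) ^ (α i / 4000) ≤
            C * (Γ.index * T ^ 2) * (Real.log p / Real.log (Γ.index * T)) ^ 3) ∧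
      (∀ P : ℕ, (P : ℝ) ^ 1000 ≤ Γ.index * T → ∀ α : ℝ, 0 ≤ α →
        (∀ i, ∃ p : ℕ, p.Prime ∧ p ≤ P ∧ ¬ p ∣ N ∧ ∃ a, α ≤ a ∧ HasExponent N p a (f i)) →
          (k : ℝ) ≤ C * (Γ.index * T ^ 2) * P * (Γ.index * T) ^ (-(α / 4000))) := by
  obtain ⟨C₁, hC₁, h1⟩ := Pool.Agent.XE31.R4.exp_sum
  obtain ⟨C₂, hC₂, h2⟩ := Pool.Agent.XE31.R4.small_primes
  refine ⟨max C₁ C₂, lt_max_of_lt_left hC₁, ?_⟩
  intro Γ N hN T hT k κ f hκ hf hli
  have hlev : Pool.Agent.N799.DT.IsLevel Γ N :=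
    ⟨hN.1.1, hN.1.2, fun M hM hM' => hN.2 ⟨hM, hM'⟩⟩
  have hn1 : (1 : ℝ) ≤ Γ.index := by
    have : NeZero N := ⟨hN.1.1.ne'⟩
    have hfin : Γ.FiniteIndex := Subgroup.finiteIndex_of_le hN.1.2
    exact_mod_cast Nat.pos_of_ne_zero hfin.index_ne_zero
  have hX1 : (1 : ℝ) ≤ Γ.index * T := one_le_mul_of_one_le_of_one_le hn1 hT
  constructor
  · intro p hp hpN hpT α hα
    refine (h1 Γ N hlev T hT k κ f (fun i => (hκ i).1) (fun i => (hκ i).2) (fun i => form_of (hf i))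
      hli p hp hpN hpT α (fun i => (hα i).1) (fun i => exp_of (hα i).2)).trans ?_
    have h3 : 0 ≤ Real.log p / Real.log (Γ.index * T) :=
      div_nonneg (Real.log_natCast_nonneg p) (Real.log_nonneg hX1)
    rw [mul_assoc C₁]
    gcongr
    exact le_max_left _ _
  · intro P hP α hα hE
    refine (h2 Γ N hlev T hT k κ f (fun i => (hκ i).1) (fun i => (hκ i).2) (fun i => form_of (hf i))
      hli P hP α hα (fun i => ?_)).trans ?_
    · obtain ⟨p, hp, hpP, hpN, a, ha, hE⟩ := hE i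
      exact ⟨p, hp, hpP, hpN, a, ha, exp_of hE⟩
    · rw [mul_assoc C₂]
      gcongr
      exact le_max_right _ _

end Pool.Agent.Results.MP_8410ab_nt.NonTemperedCount
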