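import Pool.Agent.XE31.P7

/-!
# MP_8410ab_nt: few forms violate the Ramanujan conjecture at many small primes

For EVERY congruence subgroup `Γ` of `SL(2,ℤ)`, of level `N` and index `n`, every `T ≥ 1`, and every
finite set `Ps` of primes not dividing `N`, the number of linearly independent Hecke Maass cusp forms
on `Γ \ ℍ` with Laplace eigenvalues in `[0, T ^ 2]` which are not tempered at at least `η |Ps|` of
the primes of `Ps` is at most `C n T ^ 2 (C r / (η ^ 2 |Ps|)) ^ r`, for every `r` such that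
`y ^ (5000 r / √η) ≤ n T`, where `y` is a bound for the primes, with an ABSOLUTE constant `C`.
In particular there is a power saving as soon as `Ps` is a set of at least `(log (n T)) ^ (1 + δ)`
primes, all at most `(log (n T)) ^ A`.
-/

set_option autoImplicit false

open MeasureTheory
open scoped MatrixGroups UpperHalfPlane

namespace Pool.Agent.Results.MP_8410ab_nt.NonTemperedProportion

/-- `f` is a square integrable cuspidal eigenfunction of the Laplacian `-y² (∂²/∂x² + ∂²/∂y²)` on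
`Γ \ ℍ`, with eigenvalue `κ`. -/
structure IsCuspForm (Γ : Subgroup SL(2, ℤ)) (κ : ℝ) (f : ℂ → ℂ) : Prop where
  /-- `f` is smooth on the upper half plane -/
  smooth : ContDiffOn ℝ (⊤ : ℕ∞) f {w : ℂ | 0 < w.im}
  /-- `f` is `Γ`-invariant -/
  invariant : ∀ γ ∈ Γ, ∀ z : ℍ, f ((γ • z : ℍ) : ℂ) = f (z : ℂ)
  /-- `-y² (f_xx + f_yy) = κ f` -/
  laplace : ∀ z : ℍ,
    -((z.im : ℂ) ^ 2) *
      (deriv (fun s : ℝ => deriv (fun t : ℝ => f ((t : ℂ) + (z.im : ℂ) * Complex.I)) s) z.re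
        + deriv (fun s : ℝ => deriv (fun t : ℝ => f ((z.re : ℂ) + (t : ℂ) * Complex.I)) s) z.im)
      = (κ : ℂ) * f (z : ℂ)
  /-- `f` is square integrable for `dx dy / y²` on every translate of the fundamental domain -/
  sqIntegrable : ∀ γ : SL(2, ℤ), IntegrableOn (fun w : ℂ => ‖f w‖ ^ 2 / w.im ^ 2)
    ((fun z : ℍ => ((γ • z : ℍ) : ℂ)) '' ModularGroup.fd)
  /-- the constant terms of `f` at all cusps vanish -/
  cuspidal : ∀ (γ : SL(2, ℤ)) (N : ℕ), 0 < N → CongruenceSubgroup.Gamma N ≤ Γ →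
    ∀ (y : ℝ) (hy : 0 < y), ∫ x in (0 : ℝ)..N, f ((γ • (⟨⟨x, y⟩, hy⟩ : ℍ) : ℍ) : ℂ) = 0

/-- `N` is the level of the congruence subgroup `Γ`: the least `N ≥ 1` with `Γ(N) ≤ Γ`. -/
def IsLevel (Γ : Subgroup SL(2, ℤ)) (N : ℕ) : Prop :=
  IsLeast {M : ℕ | 0 < M ∧ CongruenceSubgroup.Gamma M ≤ Γ} N

/-- The integral matrices of determinant `m ^ 2` which are congruent to `m` times the identity
modulo `N`. -/
def HeckeSet (N m : ℕ) : Set (Matrix (Fin 2) (Fin 2) ℤ) :=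
  {g | g.det = (m : ℤ) ^ 2 ∧ g.map (Int.cast : ℤ → ZMod N) = (m : ZMod N) • 1}

/-- `S` is a complete system of representatives of `Γ(N) \ HeckeSet N m`. -/
structure IsReps (N m : ℕ) (S : Finset (Matrix (Fin 2) (Fin 2) ℤ)) : Prop where
  /-- the representatives lie in the set -/
  subset : ∀ g ∈ S, g ∈ HeckeSet N m
  /-- every orbit has exactly one representative -/
  unique : ∀ h ∈ HeckeSet N m, ∃! g, g ∈ S ∧
    ∃ γ ∈ CongruenceSubgroup.Gamma N, h = (γ : Matrix (Fin 2) (Fin 2) ℤ) * g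

/-- `f` is an eigenfunction of the Hecke operators of `m ^ 2`, for all `m ≥ 1` composed of primes of
`Ps`, with Hecke parameters `lam p`: the sum over `Γ(N) \ HeckeSet N m` acts on `f` by `m` times the
product over the primes `p` dividing `m` of `S_{2 v_p(m)} (lam p)`, where
`S_n (t + 1 / t) = t ^ n + t ^ (n - 2) + ... + t ^ (-n)` are the Chebyshev polynomials. So `f` is
tempered at `p` if `|lam p| ≤ 2` and not tempered at `p` if `|lam p| > 2`. -/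
def HasHeckeParameters (N : ℕ) (Ps : Finset ℕ) (lam : ℕ → ℝ) (f : ℂ → ℂ) : Prop :=
  ∀ m : ℕ, m ≠ 0 → m.primeFactors ⊆ Ps → ∃ S, IsReps N m S ∧ ∀ z : ℍ,
    ∑ g ∈ S, f (((g 0 0 : ℂ) * z + g 0 1) / ((g 1 0 : ℂ) * z + g 1 1)) =
      ((m * ∏ p ∈ m.primeFactors,
        (Polynomial.Chebyshev.S ℝ (2 * (m.factorization p : ℤ))).eval (lam p) : ℝ) : ℂ) * f z

theorem heckeSet_iff {N m : ℕ} (g : Matrix (Fin 2) (Fin 2) ℤ) :
    g ∈ HeckeSet N m ↔ Pool.Agent.XE31.H4.HM N m g := by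
  constructor
  · rintro ⟨h1, h2⟩
    have e : ∀ i j, ((g i j : ℤ) : ZMod N) = ((m : ZMod N) • (1 : Matrix (Fin 2) (Fin 2) (ZMod N))) i j :=
      fun i j => by rw [← h2]; rfl
    refine ⟨by rw [← h1, Matrix.det_fin_two], ?_, ?_, ?_, ?_⟩
    · rw [e]; simp
    · rw [e]; simp
    · rw [e]; simp
    · rw [e]; simp
  · intro h
    refine ⟨by rw [Matrix.det_fin_two]; exact h.det, ?_⟩
    ext i j
    fin_cases i <;> fin_cases j
    · simpa using h.e00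
    · simpa using h.e01
    · simpa using h.e10
    · simpa using h.e11

theorem reps_of {N m : ℕ} {S : Finset (Matrix (Fin 2) (Fin 2) ℤ)} (h : IsReps N m S) :
    Pool.Agent.XE31.H4.Reps N m S := by
  refine ⟨fun g hg => (heckeSet_iff g).1 (h.subset g hg), fun g hg => ?_, fun s hs t ht γ hγ e => ?_⟩
  · obtain ⟨s, ⟨hs, γ, hγ, e⟩, _⟩ := h.unique g ((heckeSet_iff g).2 hg)
    exact ⟨γ, hγ, s, hs, e⟩
  · obtain ⟨u, _, hu⟩ := h.unique s (h.subset s hs)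
    have h1 := hu s ⟨hs, 1, Subgroup.one_mem _, by simp⟩
    have h2 := hu t ⟨ht, γ, hγ, e⟩
    rw [h1, h2]

theorem par_of {N : ℕ} {Ps : Finset ℕ} {lam : ℕ → ℝ} {f : ℂ → ℂ}
    (h : HasHeckeParameters N Ps lam f) :
    Pool.Agent.XE31.P6.HasPar N Ps (fun p => |lam p|) f := by
  refine Pool.Agent.XE31.P7.par_abs ?_
  intro m hm hmP
  obtain ⟨S, hS, hz⟩ := h m hm hmP
  exact ⟨S, reps_of hS, hz⟩

theorem form_of {Γ : Subgroup SL(2, ℤ)} {κ : ℝ} {f : ℂ → ℂ} (h : IsCuspForm Γ κ f) :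
    Pool.Agent.XE31.R2.FormK Γ κ f :=
  ⟨⟨h.smooth, h.laplace⟩, h.invariant, h.sqIntegrable, h.cuspidal⟩

/-- Few Maass cusp forms violate the Ramanujan conjecture at a positive proportion of the primes of
a set of small primes, uniformly in the congruence subgroup and the spectral parameter. -/
theorem result :
    (∃ C : ℝ, 0 < C ∧ ∀ (Γ : Subgroup SL(2, ℤ)) (N : ℕ), IsLevel Γ N →
      ∀ T : ℝ, 1 ≤ T → ∀ (k : ℕ) (κ : Fin k → ℝ) (f : Fin k → ℂ → ℂ),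
      (∀ i, 0 ≤ κ i ∧ κ i ≤ T ^ 2) → (∀ i, IsCuspForm Γ (κ i) (f i)) →
      LinearIndependent ℂ (fun i => fun z : ℍ => f i z) →
      ∀ (Ps : Finset ℕ) (y : ℕ), Ps.Nonempty → (∀ p ∈ Ps, p.Prime ∧ ¬ p ∣ N ∧ p ≤ y) →
      ∀ lam : Fin k → ℕ → ℝ, (∀ i, HasHeckeParameters N Ps (lam i) (f i)) →
      ∀ η : ℝ, 0 < η → η ≤ 1 →
      (∀ i, η * Ps.card ≤ ((Ps.filter fun p => 2 < |lam i p|).card : ℝ)) →
      ∀ r : ℕ, 1 ≤ r → (y : ℝ) ^ (5000 * r / Real.sqrt η) ≤ Γ.index * T →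
        (k : ℝ) ≤ C * (Γ.index * T ^ 2) * (C * r / (η ^ 2 * Ps.card)) ^ r) ∧
    (∀ η δ A : ℝ, 0 < η → η ≤ 1 → 0 < δ → 1 ≤ A → ∃ C c : ℝ, 0 < C ∧ 0 < c ∧
      ∀ (Γ : Subgroup SL(2, ℤ)) (N : ℕ), IsLevel Γ N →
      ∀ T : ℝ, 1 ≤ T → ∀ (k : ℕ) (κ : Fin k → ℝ) (f : Fin k → ℂ → ℂ),
      (∀ i, 0 ≤ κ i ∧ κ i ≤ T ^ 2) → (∀ i, IsCuspForm Γ (κ i) (f i)) →
      LinearIndependent ℂ (fun i => fun z : ℍ => f i z) →
      ∀ Ps : Finset ℕ, (∀ p ∈ Ps, p.Prime ∧ ¬ p ∣ N ∧ (p : ℝ) ≤ Real.log (Γ.index * T) ^ A) →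
      Real.log (Γ.index * T) ^ (1 + δ) ≤ Ps.card →
      ∀ lam : Fin k → ℕ → ℝ, (∀ i, HasHeckeParameters N Ps (lam i) (f i)) →
      (∀ i, η * Ps.card ≤ ((Ps.filter fun p => 2 < |lam i p|).card : ℝ)) →
        (k : ℝ) ≤ C * (Γ.index * T ^ 2) * (Γ.index * T) ^ (-c)) := by
  constructor
  · obtain ⟨C, hC, h⟩ := Pool.Agent.XE31.P6.prop
    refine ⟨C, hC, ?_⟩
    intro Γ N hN T hT k κ f hκ hf hli Ps y hne hPs lam hlam η hη hη1 hcount r hr hy
    exact h Γ N ⟨hN.1.1, hN.1.2, fun M hM hM' => hN.2 ⟨hM, hM'⟩⟩ T hT k κ f (fun i => (hκ i).1)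
      (fun i => (hκ i).2) (fun i => form_of (hf i)) hli Ps y hne hPs (fun i p => |lam i p|)
      (fun i => par_of (hlam i)) η hη hη1 hcount r hr hy
  · intro η δ A hη hη1 hδ hA
    obtain ⟨C, c, hC, hc, h⟩ := Pool.Agent.XE31.P6.power η δ A hη hη1 hδ hA
    refine ⟨C, c, hC, hc, ?_⟩
    intro Γ N hN T hT k κ f hκ hf hli Ps hPs hcard lam hlam hcount
    exact h Γ N ⟨hN.1.1, hN.1.2, fun M hM hM' => hN.2 ⟨hM, hM'⟩⟩ T hT k κ f (fun i => (hκ i).1)
      (fun i => (hκ i).2) (fun i => form_of (hf i)) hli Ps hPs hcard (fun i p => |lam i p|)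
      (fun i => par_of (hlam i)) hcount

end Pool.Agent.Results.MP_8410ab_nt.NonTemperedProportion
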